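import Pool.Agent.H7.MAdd.PFIN
import Pool.Agent.H26.CM.Dict
import Pool.Agent.H26.BV.Zfc

/-!
# MP_28e4c5_lc: the bounding number can be smaller than the additivity of the meagre-additive ideal

There is a model `(M, E)` of ZFC in which `b < add(MA)`: it has an unbounded family of functions
from `ω` to `ω` such that the union of every family of meagre-additive sets of at most that
cardinality is meagre-additive.

The model is the quotient, by an ultrafilter, of the Boolean-valued universe over the complete
Boolean algebra of a finite support iteration of σ-centred forcings of length the successor of the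
continuum.  The forcing argument is in `Pool/Agent/H7/MAdd`, the translation into the structure is in
`Pool/Agent/H26/CM`, the Boolean-valued universe in `Pool/Agent/H26/BV`.
-/

set_option autoImplicit false

theorem Pool.Agent.Results.MP_28e4c5_lc.Consistency.result :
    ∃ (M : Type 1) (E : M → M → Prop), BV.IsZFC E ∧ LD.BLtAddMA E := by
  obtain ⟨B, iB, h1, h2, h3⟩ := MAdd.exists_alg
  obtain ⟨U, -⟩ := BV.UF.exists_mem (Ne.symm h3)
  exact ⟨BV.MU U, BV.MU.E U, BV.isZFC U, LD.dict h2 h1 U⟩
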